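import Mathlib
import Pool.Agent.Y1.CT.UnrelDefs

/-!
# Products with roots of unity
-/

set_option autoImplicit false

namespace Pool.Agent.Hx18.RW

open Polynomial IntermediateField Pool.Agent.Y1.CT

/-- If all complex roots of `χ` have the property `R`, and `R` does not change under multiplication
by roots of unity, then `β * ζ` is a root of such a polynomial for all roots `β` of `χ`. -/
theorem exists_poly {K : Type*} [Field K] [CharZero K] {R : ℂ → Prop}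
    (hR : ∀ (ρ z : ℂ) (m : ℕ), 0 < m → R ρ → z ^ m = 1 → R (ρ * z)) {χ : ℚ[X]} (hχ : χ ≠ 0)
    (hχR : ∀ ρ : ℂ, aeval ρ χ = 0 → R ρ) {β ζ : K} (hβ : aeval β χ = 0) {m : ℕ} (hm : 0 < m)
    (hζ : ζ ^ m = 1) :
    ∃ P : ℚ[X], P ≠ 0 ∧ (∀ ρ : ℂ, aeval ρ P = 0 → R ρ) ∧ aeval (β * ζ) P = 0 := by
  have hβi : IsIntegral ℚ β := (isAlgebraic_iff_isIntegral).1 ⟨χ, hχ, hβ⟩
  have hζi : IsIntegral ℚ ζ := by
    refine (isAlgebraic_iff_isIntegral).1 ⟨X ^ m - C 1, ?_, ?_⟩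
    · exact X_pow_sub_C_ne_zero hm 1
    · simp [hζ]
  have hi : IsIntegral ℚ (β * ζ) := hβi.mul hζi
  refine ⟨minpoly ℚ (β * ζ), minpoly.ne_zero hi, ?_, minpoly.aeval ℚ _⟩
  intro ρ hρ
  have hmem1 : β ∈ adjoin ℚ ({β, ζ} : Set K) := subset_adjoin _ _ (by simp)
  have hmem2 : ζ ∈ adjoin ℚ ({β, ζ} : Set K) := subset_adjoin _ _ (by simp)
  obtain ⟨φ, hφ⟩ := exists_algHom_adjoin_of_splits_of_aeval (F := ℚ) (E := K) (K := ℂ)
    (S := {β, ζ}) (x := β * ζ) (y := ρ) (by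
      intro s hs
      rcases hs with rfl | hs
      · exact ⟨hβi, IsAlgClosed.splits _⟩
      · rw [Set.mem_singleton_iff] at hs
        subst hs
        exact ⟨hζi, IsAlgClosed.splits _⟩) (mul_mem hmem1 hmem2) hρ
  have h1 : φ ⟨β, hmem1⟩ * φ ⟨ζ, hmem2⟩ = ρ := by
    rw [← map_mul, ← hφ]
    rfl
  rw [← h1]
  refine hR _ _ m hm (hχR _ ?_) ?_
  · rw [Polynomial.aeval_algHom_apply]
    have h2 : aeval (⟨β, hmem1⟩ : adjoin ℚ ({β, ζ} : Set K)) χ = 0 := by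
      apply (algebraMap (adjoin ℚ ({β, ζ} : Set K)) K).injective
      rw [← Polynomial.aeval_algebraMap_apply, map_zero]
      exact hβ
    rw [h2, map_zero]
  · rw [← map_pow]
    have h2 : (⟨ζ, hmem2⟩ : adjoin ℚ ({β, ζ} : Set K)) ^ m = 1 := by
      apply Subtype.ext
      exact hζ
    rw [h2, map_one]

/-- Being unrelated does not change under multiplication by roots of unity. -/
theorem unrelated_mul {I : Type} {K : I → Type} [∀ i, Field (K i)] (ρ z : ℂ) (m : ℕ) (hm : 0 < m)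
    (h : Unrelated K ρ) (hz : z ^ m = 1) : Unrelated K (ρ * z) := by
  have hz0 : z ≠ 0 := by
    rintro rfl
    rw [zero_pow hm.ne'] at hz
    exact zero_ne_one hz
  refine ⟨mul_ne_zero h.1 hz0, fun i n hn hinv => h.2 i n hn ?_⟩
  rintro τ ⟨k, hk, hτ⟩
  refine hinv τ ⟨k * m, Nat.mul_pos hk hm, ?_⟩
  have h1 : (ρ * z) ^ (k * m) = (ρ ^ k) ^ m := by
    rw [mul_pow, mul_comm k m, pow_mul z, hz, one_pow, mul_one, mul_comm m k, pow_mul]
  rw [h1, map_pow, hτ]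

end Pool.Agent.Hx18.RW
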