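import Mathlib
import Pool.Agent.N876.CG.RelT
import Pool.Agent.W484.CK.Main
import Pool.Agent.N876.GB3.Defs
import Pool.Agent.Y1.CT.Kun
import Pool.Agent.Hx18.RW.Roots

/-!
# Abelian varieties without relations have no resonances
-/

set_option autoImplicit false

open Finset Polynomial CategoryTheory AlgebraicGeometry

namespace Pool.Agent.Hx18.RW

open Pool.Agent.H914 Pool.Agent.H914.VarClass Pool.Agent.H914.VarClass.Obj Pool.Agent.W492.BB
  Pool.Agent.W484.CK Pool.Agent.Y1.CT Module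

theorem eig_span {K V : Type*} [Field K] [AddCommGroup V] [Module K V] (φ : Module.End K V)
    {n : ℕ} (b : Basis (Fin n) K V) (α : Fin n → K) (hb : ∀ t, φ (b t) = α t • b t) (S : Set K)
    (hT : ∀ v ∈ Submodule.span K (b '' {t | α t ∈ S}),
      φ v ∈ Submodule.span K (b '' {t | α t ∈ S})) (μ : K)
    (hμ : Module.End.HasEigenvalue (φ.restrict hT) μ) : μ ∈ S := by
  classical
  obtain ⟨v, hv⟩ := hμ.exists_hasEigenvector
  have hv1 : φ (v : V) = μ • (v : V) := congrArg Subtype.val hv.apply_eq_smul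
  have hv0 : (v : V) ≠ 0 := fun h => hv.2 (Subtype.ext h)
  have h1 : ∀ t, b.coord t ∘ₗ φ = α t • b.coord t := by
    intro t
    refine b.ext fun s => ?_
    rw [LinearMap.comp_apply, hb, map_smul, LinearMap.smul_apply, Basis.coord_apply,
      Basis.repr_self, smul_eq_mul, smul_eq_mul]
    by_cases h : s = t
    · rw [h]
    · rw [Finsupp.single_eq_of_ne (Ne.symm h), mul_zero, mul_zero]
  obtain ⟨t, ht⟩ : ∃ t, b.repr v t ≠ 0 := by
    by_contra h
    push Not at h
    apply hv0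
    apply b.repr.injective
    rw [map_zero]
    ext t
    exact h t
  have h2 : t ∈ {t | α t ∈ S} :=
    (Basis.mem_span_image b).1 v.2 (Finsupp.mem_support_iff.2 ht)
  have h3 : α t * b.repr v t = μ * b.repr v t := by
    have h4 := LinearMap.congr_fun (h1 t) (v : V)
    rw [LinearMap.comp_apply, hv1, map_smul, LinearMap.smul_apply, Basis.coord_apply, smul_eq_mul,
      smul_eq_mul] at h4
    exact h4.symm
  rw [← mul_right_cancel₀ ht h3]
  exact h2

variable {κ : Type} [Field κ] [Fintype κ] {𝒱 : VarClass κ} {C : TheoryData.{0, 0, 0} 𝒱 ℚ}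
  [IsChow C] {K : Type} [Field K] [IsAlgClosed K] [CharZero K] {H : WeilTheoryData.{0, 0, 0} C K}
  [IsWeil H]

/-- The products of the eigenvalues of the Frobenius endomorphism on the cohomology of `Z` and of the
elements of `B`. -/
def products (H : WeilTheoryData.{0, 0, 0} C K) {Z : 𝒱.Obj} (π : Z ⟶ Z) (B : Set K) : Set K :=
  {γ | ∃ β ρ, (Pool.Agent.W484.CH.frob H π).HasEigenvalue β ∧ ρ ∈ B ∧ γ = β * ρ}

/-- The integral numbers without resonances. -/
def good (Q : ℕ) (P : Set K) : Set K :=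
  {α | IsIntegral ℚ α ∧ α ≠ 0 ∧ ∀ β, (β ∈ P ∨ β = 1) → ∀ e m w : ℕ, 0 < m →
    (α * (Q : K) ^ e * β) ^ m ≠ (Q : K) ^ (m * w)}

/-- The abelian variety is generated by algebraic classes and a subspace without resonances. -/
theorem cg_of_noRel {A : 𝒱.Obj} {I : Type} {q s : ℕ} (hq : 1 < q) (hs : 0 < s) {f : I → ℤ[X]}
    {R : ℂ → Prop} (hR : NoRel f q R)
    (hRζ : ∀ (ρ z : ℂ) (m : ℕ), 0 < m → R ρ → z ^ m = 1 → R (ρ * z))
    (hS : Pool.Agent.W484.CH.IsStandard H) {π : A ⟶ A}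
    (hA : Pool.Agent.W484.CH.IsAbelian H π q s f) {P : Set K}
    (hP : ∃ χ : ℚ[X], χ ≠ 0 ∧ (∀ β ∈ P, aeval β χ = 0) ∧ ∀ ρ : ℂ, aeval ρ χ = 0 → R ρ) :
    Pool.Agent.N876.CG.Cg H π (good (q ^ s) P) := by
  classical
  obtain ⟨n, b, α, hb, hα, hgood⟩ := exists_good_basis hq hR hS hs hA
  have hb' : ∀ t, Pool.Agent.W484.CH.frob H π (b t) = α t • b t := hb
  have hQ0 : q ^ s ≠ 0 := pow_ne_zero _ (by omega)
  have hQK : ((q ^ s : ℕ) : K) ≠ 0 := by exact_mod_cast hQ0
  have hT : ∀ v ∈ Submodule.span K (b '' {t | α t ∈ good (q ^ s) P}),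
      Pool.Agent.W484.CH.frob H π v ∈
        Submodule.span K (b '' {t | α t ∈ good (q ^ s) P}) := by
    intro v hv
    induction hv using Submodule.span_induction with
    | mem x hx =>
      obtain ⟨t, ht, rfl⟩ := hx
      rw [hb']
      exact Submodule.smul_mem _ _ (Submodule.subset_span ⟨t, ht, rfl⟩)
    | zero => rw [map_zero]; exact Submodule.zero_mem _
    | add x y _ _ hx hy => rw [map_add]; exact Submodule.add_mem _ hx hy
    | smul c x _ hx => rw [map_smul]; exact Submodule.smul_mem _ _ hx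
  refine ⟨Submodule.span K (b '' {t | α t ∈ good (q ^ s) P}), hT, ?_,
    fun μ hμ => eig_span _ b α hb' _ hT μ hμ⟩
  rw [eq_top_iff, ← b.span_eq, Submodule.span_le]
  rintro _ ⟨t, rfl⟩
  by_cases ht : α t ∈ good (q ^ s) P
  · exact Submodule.mem_sup_right (Submodule.subset_span ⟨t, ht, rfl⟩)
  · refine Submodule.mem_sup_left ?_
    have hα0 : α t ≠ 0 := by
      refine Pool.Agent.N876.CG.eig_ne_zero hA.frobenius hQ0
        (Module.End.hasEigenvalue_of_hasEigenvector (x := b t) ⟨?_, b.ne_zero t⟩)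
      rw [Module.End.mem_eigenspace_iff]
      exact hb' t
    have h1 : ∃ β, (β ∈ P ∨ β = 1) ∧ ∃ e m w : ℕ, 0 < m ∧
        (α t * ((q ^ s : ℕ) : K) ^ e * β) ^ m = ((q ^ s : ℕ) : K) ^ (m * w) := by
      by_contra h
      push Not at h
      exact ht ⟨hα t, hα0, fun β hβ e m w hm => h β hβ e m w hm⟩
    obtain ⟨β, hβ, e, m, w, hm, heq⟩ := h1
    obtain ⟨χ, hχ0, hχβ, hχR⟩ : ∃ χ : ℚ[X], χ ≠ 0 ∧ aeval β χ = 0 ∧
        ∀ ρ : ℂ, aeval ρ χ = 0 → R ρ := by
      rcases hβ with hβ | rfl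
      · obtain ⟨χ, h1, h2, h3⟩ := hP
        exact ⟨χ, h1, h2 β hβ, h3⟩
      · refine ⟨X - 1, ?_, ?_, root_one hR⟩
        · have := Polynomial.X_sub_C_ne_zero (1 : ℚ)
          rwa [map_one] at this
        · rw [map_sub, aeval_X, map_one, sub_self]
    -- the root of unity
    set Q : K := ((q ^ s : ℕ) : K) with hQdef
    let ζ : K := Q ^ w / (α t * Q ^ e * β)
    have hne : α t * Q ^ e * β ≠ 0 := by
      intro h
      rw [h, zero_pow hm.ne'] at heq
      exact pow_ne_zero _ hQK heq.symm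
    have hζ : ζ ^ m = 1 := by
      change (Q ^ w / (α t * Q ^ e * β)) ^ m = 1
      rw [div_pow, heq, ← pow_mul, mul_comm w m, div_self (pow_ne_zero _ hQK)]
    obtain ⟨χ', h1, h2, h3⟩ := exists_poly hRζ hχ0 hχR hχβ hm hζ
    have h4 : α t * (β * ζ) = Q ^ ((w : ℤ) - e) := by
      change α t * (β * (Q ^ w / (α t * Q ^ e * β))) = _
      have h5 : β ≠ 0 := fun h => hne (by rw [h, mul_zero])
      rw [zpow_sub₀ hQK, zpow_natCast, zpow_natCast]
      field_simp
    obtain ⟨l, -, hl⟩ := hgood χ' h1 h2 _ h3 t _ h4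
    refine Submodule.span_le.2 ?_ hl
    rintro _ ⟨D, hD, rfl⟩
    exact Submodule.subset_span ⟨l, D, Pool.Agent.W484.CH.divProd_mem hD, rfl⟩

end Pool.Agent.Hx18.RW
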