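import Mathlib
import Pool.Agent.N876.GB3.Defs
import Pool.Agent.Y1.CT.UnrelDefs

/-!
# Abelian varieties times arbitrary varieties, over a finite field: the hypotheses
-/

set_option autoImplicit false

open Polynomial CategoryTheory AlgebraicGeometry

namespace Pool.Agent.Hx18.RW

open Pool.Agent.H914 Pool.Agent.H914.VarClass Pool.Agent.H914.VarClass.Obj Pool.Agent.W492.BB
  Pool.Agent.W484.CK Pool.Agent.N876.GB3

/-- The angle rank of the Weil numbers `π i` is maximal: the only multiplicative relations between their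
conjugates and `q` are the trivial ones, given by `π * conj π = q`. -/
def MaximalRank {I : Type} [Fintype I] {E : I → Type} [∀ i, Field (E i)]
    [∀ i, NumberField (E i)] (q : ℕ) (π : ∀ i, E i) : Prop :=
  ∀ (r : ℤ) (n : (Σ i, (E i →+* ℂ)) → ℤ), ∏ x, (x.2 (π x.1)) ^ n x = (q : ℂ) ^ r →
    ∀ i (φ : E i →+* ℂ), n ⟨i, φ⟩ = n ⟨i, NumberField.ComplexEmbedding.conjugate φ⟩

/-- `F` is the Frobenius endomorphism of the varieties over `κ`, the field with `q ^ s` elements. The
variety `A` is an abelian variety, isogenous to a product of powers of abelian varieties which come from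
the field with `q` elements and have there the characteristic polynomials `f i`. The eigenvalues of the
Frobenius on the cohomology of `Z` are algebraic, and their products with the roots of `χ` are roots of
a rational polynomial `P ≠ 0` all of whose complex roots are unrelated to the fields `E i`. -/
structure IsAbelianSystem {κ : Type} [Field κ] [Fintype κ] {𝒱 : VarClass κ}
    {C : TheoryData.{0, 0, 0} 𝒱 ℚ} {K : Type} [Field K] [CharZero K]
    (H : WeilTheoryData.{0, 0, 0} C K) (F : ∀ X : 𝒱.Obj, X ⟶ X) (A Z : 𝒱.Obj) (χ : ℚ[X])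
    {I : Type} (E : I → Type) [∀ i, Field (E i)] (q s : ℕ) (f : I → ℤ[X]) : Prop where
  standard : IsStandard H
  frobenius : ∀ X, IsFrobenius C (F X) (Fintype.card κ)
  product : ∀ X Y, F (X.prod Y) = prodMap (F X) (F Y)
  pos : 0 < s
  card : Fintype.card κ = q ^ s
  abelian : IsAbelian H (F A) q s f
  polarized : IsPolarized H A
  algebraic : ∀ β : K, (ofHom (H.pull (F Z))).HasEigenvalue β → IsAlgebraic ℚ β
  ne_zero : χ.coeff 0 ≠ 0
  unrelated : ∃ P : ℚ[X], P ≠ 0 ∧ (∀ β ρ : K, (ofHom (H.pull (F Z))).HasEigenvalue β →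
    aeval ρ χ = 0 → aeval (β * ρ) P = 0) ∧ ∀ z : ℂ, aeval z P = 0 → Pool.Agent.Y1.CT.Unrelated E z

/-- The variety `A ^ n × Z`. -/
noncomputable def powerTimes {κ : Type} [Field κ] {𝒱 : VarClass κ} (A Z : 𝒱.Obj) : ℕ → 𝒱.Obj
  | 0 => Z
  | n + 1 => A.prod (powerTimes A Z n)

/-- The conclusions for `V = A × Z`, where `Q` is the number of elements of the field: for every integer
`i` the map `cl_i` is surjective for `V × U` if and only if the `cl_(i - l)` are surjective for `Z × U`,
`0 ≤ l ≤ dim A`; the same for `SS_i`; and, if homologically trivial self-correspondences of degree zero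
of the `A ^ n × Z` are nilpotent and `χ (φ) = 0` on the Chow groups, the same for injectivity and
bijectivity of `cl_i`. -/
structure Comparison {κ : Type} [Field κ] {𝒱 : VarClass κ} {C : TheoryData.{0, 0, 0} 𝒱 ℚ} {K : Type}
    [Field K] [CharZero K] {U : Homology K} {H : WeilTheoryData.{0, 0, 0} C K}
    (F : ∀ X : 𝒱.Obj, X ⟶ X) (Q : ℕ) (χ : ℚ[X]) (A Z : 𝒱.Obj) (T : Theory C)
    (reg : ∀ X, T.M X → U.R H X) : Prop where
  surjective : ∀ i : ℤ, Surjective reg F Q (A.prod Z) i ↔
    ∀ l : ℕ, l ≤ A.dim → Surjective reg F Q Z (i - l)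
  semisimple : ∀ i : ℤ, Semisimple U H F Q (A.prod Z) i ↔
    ∀ l : ℕ, l ≤ A.dim → Semisimple U H F Q Z (i - l)
  bijective : (∀ n, Nilpotence H (powerTimes A Z n)) → IsRoot T χ → ∀ i : ℤ,
    (Injective reg (A.prod Z) i ↔ ∀ l : ℕ, l ≤ A.dim → Injective reg Z (i - l)) ∧
    (IsIso reg F Q (A.prod Z) i ↔ ∀ l : ℕ, l ≤ A.dim → IsIso reg F Q Z (i - l))

end Pool.Agent.Hx18.RW
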