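import Mathlib
import Pool.Agent.Helper17.BG.Cyc
import Pool.Agent.Y1.CT.UnrelRel
import Pool.Agent.Y1.TS.Angle
import Pool.Agent.Hx18.PP.Rig
import Pool.Agent.Q29.DP.Deg
import Pool.Agent.Hx18.RW.Cr
import Pool.Agent.Hx18.RW.Defs

/-!
# Abelian varieties with rigid weights times arbitrary varieties
-/

set_option autoImplicit false

open Finset Polynomial CategoryTheory AlgebraicGeometry

namespace Pool.Agent.Hx18.RW

open NumberField Pool.Agent.H914 Pool.Agent.H914.VarClass Pool.Agent.H914.VarClass.Obj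
  Pool.Agent.W492.BB Pool.Agent.W484.CK Pool.Agent.Y1.CT Module Pool.Agent.N876.GB3
  Pool.Agent.H204R3.CM Pool.Agent.H977R3.CM Pool.Agent.Hx18.PP

/-- Maximal angle rank: no relations. -/
theorem noRel_of_rank {p : ℕ} [Fact p.Prime] {I : Type} [Fintype I]
    {K : I → Type} [∀ i, Field (K i)] [∀ i, NumberField (K i)] [∀ i, IsCMField (K i)] {a : ℕ}
    {π : ∀ i, K i} (hw : ∀ i, π i * IsCMField.complexConj (K i) (π i) = (p : K i) ^ a)
    (h : MaximalRank (p ^ a) π) (f : I → ℤ[X]) (hf : ∀ i, IsPolyOf (π i) (f i)) :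
    NoRel f (p ^ a) (Unrelated K) :=
  ⟨fun i => (hf i).1, unrelated_one K, fun s hs ρ hρ =>
    exactPair_of_angle h hw f hf s hs ρ hρ⟩

/-- Rigid weights: maximal angle rank. -/
theorem rank_rigid {p : ℕ} [Fact p.Prime] {ν : PadicAlgCl p ≃+* ℂ} {I : Type} [Fintype I]
    {K : I → Type} [∀ i, Field (K i)] [∀ i, NumberField (K i)] [∀ i, IsCMField (K i)]
    (hind : PairwiseIndep K) {M : ∀ i, (K i →+* ℂ) → ℤ}
    (hM : ∀ i φ, M i (ComplexEmbedding.conjugate φ) = M i φ) (hrig : ∀ i, IsRigid (M i))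
    {Φ : ∀ i, Set (K i →+* ℂ)} (hΦ : ∀ i, IsCMType (Φ i)) {a : ℕ} {π : ∀ i, K i}
    (hπ : ∀ i, HasType ν a (M i) (Φ i) (π i)) : MaximalRank (p ^ a) π :=
  Pool.Agent.Y1.TS.angle_types hind hM hΦ (fun i =>
    Pool.Agent.Q29.DP.notMem_degTypes_of_noRelations
      (noRelations_rigid (hM i) (hrig i) (hΦ i))) hπ

variable {κ : Type} [Field κ] [Fintype κ] {𝒱 : VarClass κ} {C : TheoryData.{0, 0, 0} 𝒱 ℚ}
  [IsChow C] {K : Type} [Field K] [IsAlgClosed K] [CharZero K] {H : WeilTheoryData.{0, 0, 0} C K}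
  [IsWeil H]

/-- The system has no resonances. -/
theorem cr_of_system {F : ∀ X : 𝒱.Obj, X ⟶ X} {A Z : 𝒱.Obj} {χ : ℚ[X]} {I : Type}
    {E : I → Type} [∀ i, Field (E i)] {q s : ℕ} {f : I → ℤ[X]} (hq : 1 < q)
    (hR : NoRel f q (Unrelated E)) (h : IsAbelianSystem H F A Z χ E q s f) :
    Pool.Agent.N876.CG.Cr H F (Fintype.card κ) (fun _ : Unit => A) Z
      (fun _ => good (q ^ s) (products H (F Z) {ρ | aeval ρ χ = 0})) {ρ | aeval ρ χ = 0} := by
  obtain ⟨P, hP0, hP1, hP2⟩ := h.unrelated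
  rw [h.card]
  exact
    { std := isStandard_bridge h.standard
      one_lt := Nat.one_lt_pow h.pos.ne' hq
      frob := fun X => h.card ▸ isFrobenius_bridge (h.frobenius X)
      prod := h.product
      cg := fun _ => cg_of_noRel hq h.pos hR (fun ρ z m => unrelated_mul ρ z m)
        (isStandard_bridge h.standard) (isAbelian_bridge h.abelian)
        ⟨P, hP0, fun _ ⟨β, ρ, hβ, hρ, e⟩ => e ▸ hP1 β ρ hβ hρ, hP2⟩
      int := fun _ α hα => hα.1
      ne := fun _ α hα => hα.2.1
      intZ := fun β hβ => (isAlgebraic_iff_isIntegral).1 (h.algebraic β hβ)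
      res := by
        rintro J ⟨⟨⟩, hJ⟩ α hα β hβ e m w hm heq
        have hJ1 : J = {()} := by
          ext x
          simp [hJ]
        rw [hJ1, prod_singleton] at heq
        exact (hα () hJ).2.2 β (Or.inl hβ) e m w hm heq
      res1 := by
        rintro J ⟨⟨⟩, hJ⟩ α hα β hβ e m w hm heq
        have hJ1 : J = {()} := by
          ext x
          simp [hJ]
        rw [hJ1, prod_singleton] at heq
        exact (hα () hJ).2.2 β (Or.inr hβ) e m w hm heq }

omit [Fintype κ] in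
theorem productOf_eq (A Z : 𝒱.Obj) (L : List Unit) :
    productOf (fun _ : Unit => A) Z L = powerTimes A Z L.length := by
  induction L with
  | nil => rfl
  | cons i L ih => rw [productOf, ih]; rfl

/-- **The comparison.** -/
theorem comparison {F : ∀ X : 𝒱.Obj, X ⟶ X} {A Z : 𝒱.Obj} {χ : ℚ[X]} {I : Type}
    {E : I → Type} [∀ i, Field (E i)] {q s : ℕ} {f : I → ℤ[X]} (hq : 1 < q)
    (hR : NoRel f q (Unrelated E)) (h : IsAbelianSystem H F A Z χ E q s f)
    (U : Homology K) (hU : IsHomology U χ) (T : Theory C) (hT : IsTheory T)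
    (hF : HasFrobenius T F (q ^ s)) (reg : ∀ X, T.M X → U.R H X) (hreg : IsRegulator T reg) :
    Comparison F (q ^ s) χ A Z T reg := by
  have hF' : HasFrobenius T F (Fintype.card κ) := h.card ▸ hF
  have h1 := Pool.Agent.Helper17.BG.cycle_main κ C H F (fun _ : Unit => A) Z χ
    (cr_of_system hq hR h) (fun _ => h.polarized) h.ne_zero U hU T hT hF' reg hreg [()]
    (List.nodup_singleton _)
  rw [h.card] at h1
  have hdim : dimension (fun _ : Unit => A) [()] = A.dim := rfl
  constructor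
  · intro i
    exact h1.surjective i
  · intro i
    exact h1.semisimple i
  · intro hn hroot i
    exact h1.bijective (fun L => (productOf_eq A Z L).symm ▸ hn L.length) hroot i

end Pool.Agent.Hx18.RW
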